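import Pool.Agent.Work.MP_db9399_oo.Interface
import Pool.Agent.Work.MP_db9399_sw_helper21.LABQ

/-!
# MP_db9399, OO, block HLV (helper89): random halves and a random orientation with tests
-/

set_option autoImplicit false

namespace Pool.Agent.Work.MP_db9399_oo.helper89

open Finset Classical
open Pool.Agent.Work.MP_db9399_all (nb)
open Pool.Agent.Work.MP_db9399_sw (avgL TQ)
open Pool.Agent.Work.MP_db9399_oo

universe u

/-! ## averages -/

section avg

variable {E : Type u} [Fintype E] {T : Type} [Fintype T]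

theorem avg_sum {ι : Type u} (A : Finset ι) (Φ : ι → (E → T) → ℝ) :
    avgL (fun f => ∑ i ∈ A, Φ i f) = ∑ i ∈ A, avgL (Φ i) := by
  unfold avgL
  rw [sum_comm, sum_div]

theorem avg_pi (F : E → T → ℝ) :
    avgL (fun f : E → T => ∏ e, F e (f e)) = ∏ e, ((∑ a, F e a) / Fintype.card T) := by
  unfold avgL
  rw [prod_div_distrib, Finset.prod_univ_sum, prod_const, card_univ, Fintype.piFinset_univ]
  congr 1
  rw [Fintype.card_pi, prod_const, card_univ]
  push_cast
  rfl

theorem avg_one [Nonempty T] (e : E) (g : T → ℝ) :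
    avgL (fun f : E → T => g (f e)) = (∑ a, g a) / Fintype.card T := by
  have hT : (Fintype.card T : ℝ) ≠ 0 := by
    have : 0 < Fintype.card T := Fintype.card_pos
    exact_mod_cast this.ne'
  have h := avg_pi (fun (x : E) (a : T) => if x = e then g a else 1)
  have h1 : (fun f : E → T => ∏ x, (if x = e then g (f x) else 1)) = fun f => g (f e) := by
    funext f
    rw [prod_ite_eq' univ e (fun x => g (f x)), if_pos (mem_univ e)]
  rw [h1] at h
  rw [h, ← mul_prod_erase univ _ (mem_univ e)]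
  have h2 : ∏ x ∈ univ.erase e, ((∑ a, if x = e then g a else 1) / (Fintype.card T : ℝ)) = 1 := by
    refine prod_eq_one fun x hx => ?_
    rw [sum_congr rfl fun a _ => if_neg (ne_of_mem_erase hx), sum_const, card_univ, nsmul_eq_mul,
      mul_one, div_self hT]
  rw [h2, mul_one]
  simp

theorem avg_two [Nonempty T] (e e' : E) (he : e ≠ e') (g h : T → ℝ) :
    avgL (fun f : E → T => g (f e) * h (f e')) =
      (∑ a, g a) / Fintype.card T * ((∑ a, h a) / Fintype.card T) := by
  have hT : (Fintype.card T : ℝ) ≠ 0 := by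
    have : 0 < Fintype.card T := Fintype.card_pos
    exact_mod_cast this.ne'
  have h0 := avg_pi (fun (x : E) (a : T) => (if x = e then g a else 1) * if x = e' then h a else 1)
  have h1 : (fun f : E → T => ∏ x, ((if x = e then g (f x) else 1) *
      if x = e' then h (f x) else 1)) = fun f => g (f e) * h (f e') := by
    funext f
    rw [prod_mul_distrib, prod_ite_eq' univ e (fun x => g (f x)), if_pos (mem_univ e),
      prod_ite_eq' univ e' (fun x => h (f x)), if_pos (mem_univ e')]
  rw [h1] at h0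
  rw [h0, ← mul_prod_erase univ _ (mem_univ e),
    ← mul_prod_erase (univ.erase e) _ (mem_erase.2 ⟨he.symm, mem_univ e'⟩)]
  have h2 : ∏ x ∈ (univ.erase e).erase e', ((∑ a, (if x = e then g a else 1) *
      if x = e' then h a else 1) / (Fintype.card T : ℝ)) = 1 := by
    refine prod_eq_one fun x hx => ?_
    rw [mem_erase, mem_erase] at hx
    rw [sum_congr rfl fun a _ => by rw [if_neg hx.2.1, if_neg hx.1, mul_one], sum_const, card_univ,
      nsmul_eq_mul, mul_one, div_self hT]
  rw [h2, mul_one]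
  simp [he, he.symm]

end avg

/-! ## local tests -/

section tests

variable {V : Type u} {T : Type}

/-- a local test -/
noncomputable def lt (A : Finset V) (u v : V) (ψ : V → T → T → ℝ) (f : Sym2 V → T) : ℝ :=
  ∑ y ∈ A, ψ y (f s(u, y)) (f s(v, y))

/-- its Lipschitz constants -/
noncomputable def lc (A : Finset V) (u v : V) (e : Sym2 V) : ℝ :=
  ((A.filter fun y => e = s(u, y) ∨ e = s(v, y)).card : ℝ)

theorem lt_lip (A : Finset V) (u v : V) (ψ : V → T → T → ℝ)
    (hψ : ∀ y ∈ A, ∀ a b a' b', |ψ y a b - ψ y a' b'| ≤ 1) (e : Sym2 V) (f f' : Sym2 V → T)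
    (hf : ∀ x, x ≠ e → f x = f' x) : |lt A u v ψ f - lt A u v ψ f'| ≤ lc A u v e := by
  unfold lt lc
  rw [← sum_sub_distrib, card_filter, Nat.cast_sum]
  refine (abs_sum_le_sum_abs _ _).trans (sum_le_sum fun y hy => ?_)
  by_cases h : e = s(u, y) ∨ e = s(v, y)
  · rw [if_pos h, Nat.cast_one]
    exact hψ y hy _ _ _ _
  · rw [if_neg h, Nat.cast_zero]
    rw [not_or] at h
    rw [hf _ (Ne.symm h.1), hf _ (Ne.symm h.2), sub_self, abs_zero]

theorem lc_le (A : Finset V) (u v : V) (e : Sym2 V) : lc A u v e ≤ 2 := by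
  unfold lc
  have h1 : ∀ z : V, (A.filter fun y => e = s(z, y)).card ≤ 1 := by
    intro z
    rw [card_le_one]
    intro a ha b hb
    rw [mem_filter] at ha hb
    have h := ha.2.symm.trans hb.2
    rw [Sym2.eq_iff] at h
    rcases h with h | h
    · exact h.2
    · exact h.2.trans h.1
  have h2 : (A.filter fun y => e = s(u, y) ∨ e = s(v, y)).card ≤ 2 := by
    rw [filter_or]
    have := card_union_le (A.filter fun y => e = s(u, y)) (A.filter fun y => e = s(v, y))
    have := h1 u
    have := h1 v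
    omega
  exact_mod_cast h2

theorem sum_lc [Fintype V] (A : Finset V) (u v : V) : ∑ e, lc A u v e ≤ 2 * A.card := by
  unfold lc
  rw [← Nat.cast_sum, sum_congr rfl fun e _ => card_filter _ _, sum_comm]
  have h : ∀ y ∈ A, (∑ e : Sym2 V, if e = s(u, y) ∨ e = s(v, y) then 1 else 0) ≤ 2 := by
    intro y _
    rw [← card_filter, filter_or]
    refine (card_union_le _ _).trans ?_
    have e1 : (univ.filter fun e : Sym2 V => e = s(u, y)).card = 1 := by
      rw [filter_eq', if_pos (mem_univ _), card_singleton]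
    have e2 : (univ.filter fun e : Sym2 V => e = s(v, y)).card = 1 := by
      rw [filter_eq', if_pos (mem_univ _), card_singleton]
    rw [e1, e2]
  have h2 := sum_le_sum h
  rw [sum_const, smul_eq_mul, mul_comm] at h2
  exact_mod_cast h2

theorem sum_lc2 [Fintype V] (A : Finset V) (u v : V) : ∑ e, lc A u v e ^ 2 ≤ 4 * A.card := by
  have h : ∀ e, lc A u v e ^ 2 ≤ 2 * lc A u v e := by
    intro e
    have h0 : 0 ≤ lc A u v e := Nat.cast_nonneg _
    have := mul_le_mul_of_nonneg_right (lc_le A u v e) h0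
    nlinarith
  refine (sum_le_sum fun e _ => h e).trans ?_
  rw [← mul_sum]
  have := sum_lc A u v
  linarith

theorem sup_lc [Fintype V] (A : Finset V) (u v : V) :
    ((univ.filter fun e => lc A u v e ≠ 0).card : ℝ) ≤ 2 * A.card := by
  refine le_trans ?_ (sum_lc A u v)
  rw [card_filter, Nat.cast_sum]
  refine sum_le_sum fun e _ => ?_
  unfold lc
  split_ifs with h
  · rw [Nat.cast_one]
    have h1 : 0 < (A.filter fun y => e = s(u, y) ∨ e = s(v, y)).card :=
      Nat.pos_of_ne_zero fun h0 => h (by rw [h0, Nat.cast_zero])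
    exact_mod_cast h1
  · simp

theorem lc_ne {A : Finset V} {u v : V} {e : Sym2 V} (h : lc A u v e ≠ 0) :
    ∃ y ∈ A, e = s(u, y) ∨ e = s(v, y) := by
  unfold lc at h
  have h1 : (A.filter fun y => e = s(u, y) ∨ e = s(v, y)).card ≠ 0 := fun h0 => h (by
    rw [h0, Nat.cast_zero])
  obtain ⟨y, hy⟩ := card_pos.1 (Nat.pos_of_ne_zero h1)
  rw [mem_filter] at hy
  exact ⟨y, hy.1, hy.2⟩

end tests

/-! ## the block -/

/-- the index of a vertex -/
noncomputable def ix {V : Type u} [Fintype V] (v : V) : ℕ := (Fintype.equivFin V v : ℕ)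

theorem ix_inj {V : Type u} [Fintype V] : Function.Injective (ix : V → ℕ) := fun _ _ h =>
  (Fintype.equivFin V).injective (Fin.ext h)

/-- direction of the coin `b` at `v w`: `true` means from the small to the large index -/
def dirv {V : Type u} [Fintype V] (b : Bool) (v w : V) : Prop := b = true ↔ ix v < ix w

section block

variable {V κ : Type u} [Fintype V]

/-- the type of the tests -/
abbrev JJ (V κ : Type u) : Type u := (Bool × Bool × V) ⊕ (V × V) ⊕ (Bool × κ)

/-- the set of a test -/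
noncomputable def tA (Go : SimpleGraph V) (vk : κ → V) (q : κ → V → ℝ) : JJ V κ → Finset V
  | Sum.inl x => nb Go x.2.2
  | Sum.inr (Sum.inl x) => if x.1 = x.2 then ∅ else nb Go x.1 ∩ nb Go x.2
  | Sum.inr (Sum.inr x) => (nb Go (vk x.2)).filter fun w => q x.2 w ≠ 0

/-- the first vertex of a test -/
noncomputable def tu (vk : κ → V) : JJ V κ → V
  | Sum.inl x => x.2.2
  | Sum.inr (Sum.inl x) => x.1
  | Sum.inr (Sum.inr x) => vk x.2

/-- the second vertex of a test -/
noncomputable def tw (vk : κ → V) : JJ V κ → V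
  | Sum.inl x => x.2.2
  | Sum.inr (Sum.inl x) => x.2
  | Sum.inr (Sum.inr x) => vk x.2

/-- the function of a test -/
noncomputable def tp (q : κ → V → ℝ) : JJ V κ → V → Bool × Bool → Bool × Bool → ℝ
  | Sum.inl x => fun y a _ =>
      if a.1 = x.1 ∧ (if x.2.1 = true then dirv a.2 x.2.2 y else dirv a.2 y x.2.2) then 1 else 0
  | Sum.inr (Sum.inl _) => fun _ a b => (if a.1 = true then 1 else 0) * if b.1 = false then 1 else 0
  | Sum.inr (Sum.inr x) => fun y a _ => if a.1 = x.1 then q x.2 y else 0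

theorem tp_lip (q : κ → V → ℝ) (hq : ∀ k v, |q k v| ≤ 1) (j : JJ V κ) (y : V)
    (a b a' b' : Bool × Bool) : |tp q j y a b - tp q j y a' b'| ≤ 1 := by
  rcases j with x | x | x
  · simp only [tp]
    split_ifs <;> norm_num
  · simp only [tp]
    split_ifs <;> norm_num
  · simp only [tp]
    have h := hq x.2 y
    split_ifs
    · simp
    · simpa using h
    · simpa using h
    · simp

theorem tA_card (Go : SimpleGraph V) (vk : κ → V) (q : κ → V → ℝ) {d : ℕ}
    (hdeg : ∀ v, (nb Go v).card ≤ d) (j : JJ V κ) : (tA Go vk q j).card ≤ d := by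
  rcases j with x | x | x
  · exact hdeg _
  · simp only [tA]
    split_ifs
    · simp
    · exact (card_le_card inter_subset_left).trans (hdeg _)
  · exact (card_le_card (filter_subset _ _)).trans (hdeg _)

theorem mem_nb' {G : SimpleGraph V} {v w : V} : w ∈ nb G v ↔ G.Adj v w := by
  simp [Pool.Agent.Work.MP_db9399_all.nb]

theorem num_le [Fintype κ] (Go : SimpleGraph V) (vk : κ → V) (q : κ → V → ℝ) {d : ℕ} (h4 : 4 ≤ d)
    (hdeg : ∀ v, (nb Go v).card ≤ d)
    (hnum : ∀ v w, Go.Adj v w → (univ.filter fun k => vk k = v ∧ q k w ≠ 0).card ≤ d ^ 8)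
    (e : Sym2 V) :
    (univ.filter fun j : JJ V κ => lc (tA Go vk q j) (tu vk j) (tw vk j) e ≠ 0).card ≤
      d ^ 10 := by
  induction e using Sym2.ind with
  | _ a b =>
  rw [card_filter, Fintype.sum_sum_type, Fintype.sum_sum_type, ← card_filter, ← card_filter,
    ← card_filter]
  -- first kind
  have h1 : (univ.filter fun x : Bool × Bool × V => lc (tA Go vk q (Sum.inl x))
      (tu vk (Sum.inl x)) (tw vk (Sum.inl x)) s(a, b) ≠ 0).card ≤ 8 := by
    have hsub : (univ.filter fun x : Bool × Bool × V => lc (tA Go vk q (Sum.inl x))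
        (tu vk (Sum.inl x)) (tw vk (Sum.inl x)) s(a, b) ≠ 0) ⊆
        (univ : Finset Bool) ×ˢ (univ : Finset Bool) ×ˢ ({a, b} : Finset V) := by
      intro x hx
      rw [mem_filter] at hx
      obtain ⟨y, _, hy⟩ := lc_ne hx.2
      simp only [mem_product, mem_univ, true_and, mem_insert, mem_singleton]
      have hy' : s(a, b) = s(x.2.2, y) := by
        rcases hy with hy | hy <;> exact hy
      rw [Sym2.eq_iff] at hy'
      rcases hy' with h | h
      · exact Or.inl h.1.symm
      · exact Or.inr h.2.symm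
    refine (card_le_card hsub).trans ?_
    rw [card_product, card_product, card_univ, Fintype.card_bool]
    have := card_le_two (a := a) (b := b)
    omega
  -- second kind
  have h2 : (univ.filter fun x : V × V => lc (tA Go vk q (Sum.inr (Sum.inl x)))
      (tu vk (Sum.inr (Sum.inl x))) (tw vk (Sum.inr (Sum.inl x))) s(a, b) ≠ 0).card ≤
      2 * (2 * (2 * d)) := by
    have hsub : (univ.filter fun x : V × V => lc (tA Go vk q (Sum.inr (Sum.inl x)))
        (tu vk (Sum.inr (Sum.inl x))) (tw vk (Sum.inr (Sum.inl x))) s(a, b) ≠ 0) ⊆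
        (({a, b} : Finset V) ×ˢ (nb Go a ∪ nb Go b)) ∪
          ((nb Go a ∪ nb Go b) ×ˢ ({a, b} : Finset V)) := by
      intro x hx
      rw [mem_filter] at hx
      obtain ⟨y, hyA, hy⟩ := lc_ne hx.2
      simp only [tA] at hyA
      split_ifs at hyA with hxx
      · exact absurd hyA (notMem_empty _)
      rw [mem_inter, mem_nb', mem_nb'] at hyA
      simp only [mem_union, mem_product, mem_insert, mem_singleton, mem_nb']
      have hy' : s(a, b) = s(x.1, y) ∨ s(a, b) = s(x.2, y) := hy
      rw [Sym2.eq_iff, Sym2.eq_iff] at hy'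
      rcases hy' with (h | h) | (h | h)
      · left
        refine ⟨Or.inl h.1.symm, Or.inr ?_⟩
        rw [h.2]
        exact hyA.2.symm
      · left
        refine ⟨Or.inr h.2.symm, Or.inl ?_⟩
        rw [h.1]
        exact hyA.2.symm
      · right
        refine ⟨Or.inr ?_, Or.inl h.1.symm⟩
        rw [h.2]
        exact hyA.1.symm
      · right
        refine ⟨Or.inl ?_, Or.inr h.2.symm⟩
        rw [h.1]
        exact hyA.1.symm
    refine (card_le_card hsub).trans ((card_union_le _ _).trans ?_)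
    rw [card_product, card_product]
    have e1 := card_le_two (a := a) (b := b)
    have e2 := (card_union_le (nb Go a) (nb Go b)).trans (add_le_add (hdeg a) (hdeg b))
    have e3 := Nat.mul_le_mul e1 e2
    have e4 := Nat.mul_le_mul e2 e1
    omega
  -- third kind
  have h3 : (univ.filter fun x : Bool × κ => lc (tA Go vk q (Sum.inr (Sum.inr x)))
      (tu vk (Sum.inr (Sum.inr x))) (tw vk (Sum.inr (Sum.inr x))) s(a, b) ≠ 0).card ≤
      2 * (d ^ 8 + d ^ 8) := by
    have hsub : (univ.filter fun x : Bool × κ => lc (tA Go vk q (Sum.inr (Sum.inr x)))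
        (tu vk (Sum.inr (Sum.inr x))) (tw vk (Sum.inr (Sum.inr x))) s(a, b) ≠ 0) ⊆
        (univ : Finset Bool) ×ˢ (univ.filter fun k => Go.Adj a b ∧
          ((vk k = a ∧ q k b ≠ 0) ∨ (vk k = b ∧ q k a ≠ 0))) := by
      intro x hx
      rw [mem_filter] at hx
      obtain ⟨y, hyA, hy⟩ := lc_ne hx.2
      simp only [tA, mem_filter, mem_nb'] at hyA
      simp only [mem_product, mem_univ, true_and, mem_filter]
      have hy' : s(a, b) = s(vk x.2, y) := by
        rcases hy with hy | hy <;> exact hy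
      rw [Sym2.eq_iff] at hy'
      rcases hy' with h | h
      · rw [h.1, h.2]
        exact ⟨hyA.1, Or.inl ⟨rfl, hyA.2⟩⟩
      · rw [h.1, h.2]
        exact ⟨hyA.1.symm, Or.inr ⟨rfl, hyA.2⟩⟩
    refine (card_le_card hsub).trans ?_
    rw [card_product, card_univ, Fintype.card_bool]
    refine Nat.mul_le_mul_left _ ?_
    by_cases hab : Go.Adj a b
    · have e1 : (univ.filter fun k => Go.Adj a b ∧
          ((vk k = a ∧ q k b ≠ 0) ∨ (vk k = b ∧ q k a ≠ 0))) ⊆
          (univ.filter fun k => vk k = a ∧ q k b ≠ 0) ∪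
            univ.filter fun k => vk k = b ∧ q k a ≠ 0 := by
        intro k hk
        simp only [mem_filter, mem_univ, true_and, mem_union] at hk ⊢
        exact hk.2
      exact (card_le_card e1).trans ((card_union_le _ _).trans
        (add_le_add (hnum a b hab) (hnum b a hab.symm)))
    · rw [filter_false_of_mem fun k _ h => hab h.1]
      simp
  have h5 : 4 * 4 ≤ d ^ 2 := by nlinarith
  have h6 : d * 4 ^ 7 ≤ d ^ 8 := by
    have : 4 ^ 7 ≤ d ^ 7 := Nat.pow_le_pow_left h4 7
    calc d * 4 ^ 7 ≤ d * d ^ 7 := Nat.mul_le_mul_left _ this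
      _ = d ^ 8 := by ring
  have h7 : d ^ 10 = d ^ 8 * d ^ 2 := by ring
  have h8 : d ^ 8 * (4 * 4) ≤ d ^ 8 * d ^ 2 := Nat.mul_le_mul_left _ h5
  have h9 : 1 ≤ d ^ 8 := Nat.one_le_pow _ _ (by omega)
  norm_num at h6 h8
  rw [h7]
  omega

theorem avg_same (A : Finset V) (u : V) (ψ : V → Bool × Bool → Bool × Bool → ℝ) :
    avgL (lt A u u ψ) = ∑ y ∈ A, (∑ a, ψ y a a) / 4 := by
  unfold lt
  rw [avg_sum]
  refine sum_congr rfl fun y _ => ?_
  rw [avg_one s(u, y) (fun a => ψ y a a)]
  simp [Fintype.card_prod, Fintype.card_bool]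

end block

theorem stmt_HLV : Stmt_HLV.{u} := by
  obtain ⟨d1, hd1⟩ := MP_db9399_sw.helper21.stmt_LABQ.{u} (Bool × Bool) 0 1 1 1 1 one_pos one_pos
    one_pos one_pos
  -- numbers
  have hlog : ∃ N : ℕ, ∀ d : ℕ, N ≤ d → Real.log d ≤ (d : ℝ) ^ (1 / 1000 : ℝ) := by
    have h := (isLittleO_log_rpow_atTop (show (0 : ℝ) < 1 / 1000 by norm_num)).bound
      (show (0 : ℝ) < 1 by norm_num)
    obtain ⟨X, hX⟩ := Filter.eventually_atTop.1 h
    refine ⟨max 1 ⌈X⌉₊, fun d hd => ?_⟩
    have hd1 : 1 ≤ d := le_trans (le_max_left _ _) hd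
    have hdX : X ≤ (d : ℝ) := (Nat.le_ceil X).trans (by
      exact_mod_cast le_trans (le_max_right _ _) hd)
    have hdr : (1 : ℝ) ≤ d := by exact_mod_cast hd1
    have h3 := hX d hdX
    rw [Real.norm_of_nonneg (Real.log_nonneg hdr),
      Real.norm_of_nonneg (Real.rpow_nonneg (by linarith) _), one_mul] at h3
    exact h3
  obtain ⟨N1, hN1⟩ := hlog
  have h12 : ∃ N : ℕ, ∀ d : ℕ, N ≤ d → (12 : ℝ) ≤ (d : ℝ) ^ (1 / 125 : ℝ) := by
    have h := (tendsto_rpow_atTop (show (0 : ℝ) < 1 / 125 by norm_num)).eventually_ge_atTop 12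
    obtain ⟨X, hX⟩ := Filter.eventually_atTop.1 h
    refine ⟨⌈X⌉₊, fun d hd => hX d ((Nat.le_ceil X).trans (by exact_mod_cast hd))⟩
  obtain ⟨N2, hN2⟩ := h12
  refine ⟨max (max d1 4) (max N1 N2), ?_⟩
  intro V κ _ _ Go d vk q hd hdeg hq hnum
  have hdd1 : d1 ≤ d := le_trans (le_trans (le_max_left _ _) (le_max_left _ _)) hd
  have h4 : 4 ≤ d := le_trans (le_trans (le_max_right _ _) (le_max_left _ _)) hd
  have hl := hN1 d (le_trans (le_trans (le_max_left _ _) (le_max_right _ _)) hd)
  have h12 := hN2 d (le_trans (le_trans (le_max_right _ _) (le_max_right _ _)) hd)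
  have hdr : (4 : ℝ) ≤ d := by exact_mod_cast h4
  have hdp : (0 : ℝ) < d := by linarith
  have hl0 : 0 ≤ Real.log d := Real.log_nonneg (by linarith)
  set t : ℝ := (d : ℝ) ^ (505 / 1000 : ℝ) with ht
  have ht0 : 0 < t := by positivity
  have ht2 : 12 * (d : ℝ) ^ (1 / 500 : ℝ) * d ≤ t ^ 2 := by
    have e1 : t ^ 2 = (d : ℝ) ^ (1 / 125 : ℝ) * (d : ℝ) ^ (1 / 500 : ℝ) * d := by
      rw [ht, ← Real.rpow_natCast, ← Real.rpow_mul hdp.le, ← Real.rpow_add hdp]
      nth_rewrite 3 [← Real.rpow_one (d : ℝ)]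
      rw [← Real.rpow_add hdp]
      norm_num
    rw [e1]
    gcongr
  have key : TQ 1 d (fun j => lt (tA Go vk q j) (tu vk j) (tw vk j) (tp q j))
      (fun j => lc (tA Go vk q j) (tu vk j) (tw vk j)) (fun _ => t) := by
    refine ⟨fun j e => Nat.cast_nonneg _, fun j e f f' hf => ?_, fun e => ?_, fun _ => ht0,
      fun j => ?_⟩
    · exact lt_lip _ _ _ _ (fun y _ a b a' b' => tp_lip q hq j y a b a' b') e f f' hf
    · exact num_le Go vk q h4 hdeg hnum e
    · have hA : ((tA Go vk q j).card : ℝ) ≤ d := by exact_mod_cast tA_card Go vk q hdeg j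
      have s1 := sum_lc2 (tA Go vk q j) (tu vk j) (tw vk j)
      have s2 := sup_lc (tA Go vk q j) (tu vk j) (tw vk j)
      have s3 : ((univ.filter fun e => lc (tA Go vk q j) (tu vk j) (tw vk j) e ≠ 0).card : ℝ) / d
          ≤ 2 := by
        rw [div_le_iff₀ hdp]
        linarith
      have s4 : Real.log d ^ 2 ≤ (d : ℝ) ^ (1 / 500 : ℝ) := by
        have : (d : ℝ) ^ (1 / 500 : ℝ) = ((d : ℝ) ^ (1 / 1000 : ℝ)) ^ 2 := by
          rw [← Real.rpow_natCast, ← Real.rpow_mul hdp.le]
          norm_num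
        rw [this]
        exact pow_le_pow_left₀ hl0 hl 2
      have s5 : (1 : ℝ) ≤ (d : ℝ) ^ (1 / 500 : ℝ) :=
        Real.one_le_rpow (by linarith) (by norm_num)
      have s6 : (0 : ℝ) ≤ ∑ e, lc (tA Go vk q j) (tu vk j) (tw vk j) e ^ 2 :=
        sum_nonneg fun _ _ => sq_nonneg _
      calc 1 * (Real.log d ^ 2 + ((univ.filter fun e =>
            lc (tA Go vk q j) (tu vk j) (tw vk j) e ≠ 0).card : ℝ) / d) *
            ∑ e, lc (tA Go vk q j) (tu vk j) (tw vk j) e ^ 2
          ≤ (3 * (d : ℝ) ^ (1 / 500 : ℝ)) * (4 * d) := by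
            refine mul_le_mul ?_ ?_ s6 (by positivity)
            · linarith
            · linarith
        _ = 12 * (d : ℝ) ^ (1 / 500 : ℝ) * d := by ring
        _ ≤ t ^ 2 := ht2
  obtain ⟨lab, -, hlab⟩ := hd1 (V := Sym2 V) (fun i => i.elim0) d (fun i => i.elim0) (JJ V κ) _ _ _
    hdd1 (fun i => i.elim0) (fun i => i.elim0) key
  -- the graphs
  have hsw : ∀ v w, lab s(v, w) = lab s(w, v) := fun v w => by rw [Sym2.eq_swap]
  set H : Bool → SimpleGraph V := fun i =>
    { Adj := fun v w => Go.Adj v w ∧ (lab s(v, w)).1 = i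
      symm := ⟨fun v w h => ⟨h.1.symm, by rw [hsw]; exact h.2⟩⟩
      loopless := ⟨fun v h => Go.irrefl h.1⟩ } with hH
  set Dr : V → V → Prop := fun v w => Go.Adj v w ∧ dirv (lab s(v, w)).2 v w with hDr
  have hHa : ∀ i v w, (H i).Adj v w ↔ Go.Adj v w ∧ (lab s(v, w)).1 = i := fun i v w => Iff.rfl
  have hDa : ∀ v w, Dr v w ↔ Go.Adj v w ∧ dirv (lab s(v, w)).2 v w := fun v w => Iff.rfl
  clear_value H Dr
  have hix : ∀ v w, Go.Adj v w → ix v ≠ ix w := fun v w h e => h.ne (ix_inj e)
  have hnbH : ∀ i v, nb (H i) v = (nb Go v).filter fun w => (lab s(v, w)).1 = i := by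
    intro i v
    ext w
    rw [mem_nb', mem_filter, mem_nb', hHa]
  refine ⟨H, Dr, ⟨⟨fun v w h => ?_, fun v w h h' => ?_⟩, fun i v w h => ?_, fun v w h => ?_,
    fun v w h h' => ?_, fun i s v => ?_, fun u w huw => ?_⟩, fun i k => ?_⟩
  · rw [hDa, hDa, hsw w v]
    unfold dirv
    have h1 := hix v w h
    by_cases hb : (lab s(v, w)).2 = true
    · rcases lt_or_gt_of_ne h1 with h2 | h2
      · exact Or.inl ⟨h, by simp [hb, h2]⟩
      · exact Or.inr ⟨h.symm, by simp [hb, h2]⟩
    · rcases lt_or_gt_of_ne h1 with h2 | h2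
      · exact Or.inr ⟨h.symm, by simp [hb, h2.le]⟩
      · exact Or.inl ⟨h, by simp [hb, h2.le]⟩
  · rw [hDa] at h h'
    rw [hsw w v] at h'
    have h1 := hix v w h.1
    have h2 := h.2
    have h3 := h'.2
    unfold dirv at h2 h3
    rw [h2] at h3
    omega
  · exact ((hHa i v w).1 h).1
  · exact ⟨(lab s(v, w)).1, (hHa _ v w).2 ⟨h, rfl⟩⟩
  · rw [hHa] at h h'
    exact absurd (h.2.symm.trans h'.2) (by simp)
  · -- degrees
    have h1 := hlab (Sum.inl (i, s, v))
    simp only [tA, tu, tw] at h1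
    rw [avg_same] at h1
    have e1 : ∑ y ∈ nb Go v, (∑ a, tp q (Sum.inl (i, s, v)) y a a) / 4 =
        ((nb Go v).card : ℝ) / 4 := by
      have : ∀ y ∈ nb Go v, (∑ a, tp q (Sum.inl (i, s, v) : JJ V κ) y a a) / 4 = 1 / 4 := by
        intro y hy
        have hv := hix v y (mem_nb'.1 hy)
        congr 1
        simp only [tp, dirv, Fintype.sum_prod_type, Fintype.sum_bool]
        rcases lt_or_gt_of_ne hv with h2 | h2
        · cases i <;> cases s <;> simp [h2, h2.not_gt]
        · cases i <;> cases s <;> simp [h2, h2.not_gt]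
      rw [sum_congr rfl this, sum_const, nsmul_eq_mul]
      ring
    rw [e1] at h1
    have e2 : lt (nb Go v) v v (tp q (Sum.inl (i, s, v) : JJ V κ)) lab =
        ((no Dr (H i) s v).card : ℝ) := by
      unfold lt no
      rw [hnbH, filter_filter, card_filter, Nat.cast_sum]
      refine sum_congr rfl fun y hy => ?_
      have hy' := mem_nb'.1 hy
      simp only [tp, hDa]
      rw [hsw y v]
      cases s <;> simp [hy', hy'.symm]
    rw [e2] at h1
    exact h1
  · -- codegrees
    have h1 := hlab (Sum.inr (Sum.inl (u, w)))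
    simp only [tA, tu, tw, if_neg huw] at h1
    have e1 : avgL (lt (nb Go u ∩ nb Go w) u w (tp q (Sum.inr (Sum.inl (u, w)) : JJ V κ))) =
        ((nb Go u ∩ nb Go w).card : ℝ) / 4 := by
      unfold lt
      rw [avg_sum]
      have : ∀ y ∈ nb Go u ∩ nb Go w, avgL (fun f : Sym2 V → Bool × Bool =>
          tp q (Sum.inr (Sum.inl (u, w)) : JJ V κ) y (f s(u, y)) (f s(w, y))) = 1 / 4 := by
        intro y hy
        rw [mem_inter, mem_nb', mem_nb'] at hy
        have hne : s(u, y) ≠ s(w, y) := by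
          intro h
          rw [Sym2.eq_iff] at h
          rcases h with h | h
          · exact huw h.1
          · exact hy.1.ne h.1
        simp only [tp]
        rw [avg_two s(u, y) s(w, y) hne (fun a : Bool × Bool => if a.1 = true then (1 : ℝ) else 0)
          (fun b => if b.1 = false then (1 : ℝ) else 0)]
        have b1 : (∑ a : Bool × Bool, if a.1 = true then (1 : ℝ) else 0) = 2 := by
          rw [Fintype.sum_prod_type, Fintype.sum_bool]
          norm_num
        have b2 : (∑ a : Bool × Bool, if a.1 = false then (1 : ℝ) else 0) = 2 := by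
          rw [Fintype.sum_prod_type, Fintype.sum_bool]
          norm_num
        rw [b1, b2, Fintype.card_prod, Fintype.card_bool]
        norm_num
      rw [sum_congr rfl this, sum_const, nsmul_eq_mul]
      ring
    rw [e1] at h1
    have e2 : lt (nb Go u ∩ nb Go w) u w (tp q (Sum.inr (Sum.inl (u, w)) : JJ V κ)) lab =
        ((nb (H true) u ∩ nb (H false) w).card : ℝ) := by
      unfold lt
      have e3 : nb (H true) u ∩ nb (H false) w = (nb Go u ∩ nb Go w).filter fun y =>
          (lab s(u, y)).1 = true ∧ (lab s(w, y)).1 = false := by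
        ext y
        simp only [hnbH, mem_inter, mem_filter]
        tauto
      rw [e3, card_filter, Nat.cast_sum]
      refine sum_congr rfl fun y _ => ?_
      simp only [tp]
      by_cases c1 : (lab s(u, y)).1 = true <;> by_cases c2 : (lab s(w, y)).1 = false <;>
        simp [c1, c2]
    rw [e2] at h1
    exact h1
  · -- external tests
    have h1 := hlab (Sum.inr (Sum.inr (i, k)))
    simp only [tA, tu, tw] at h1
    rw [avg_same] at h1
    have e0 : ∀ g : V → ℝ, (∀ y, q k y = 0 → g y = 0) →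
        ∑ y ∈ (nb Go (vk k)).filter (fun w => q k w ≠ 0), g y = ∑ y ∈ nb Go (vk k), g y := by
      intro g hg
      rw [sum_filter]
      refine sum_congr rfl fun y _ => ?_
      split_ifs with h
      · rfl
      · exact (hg y (not_not.1 h)).symm
    rw [e0 _ fun y hy => by simp [tp, hy]] at h1
    have e1 : ∑ y ∈ nb Go (vk k), (∑ a, tp q (Sum.inr (Sum.inr (i, k)) : JJ V κ) y a a) / 4 =
        (∑ w ∈ nb Go (vk k), q k w) / 2 := by
      rw [sum_div]
      refine sum_congr rfl fun y _ => ?_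
      simp only [tp, Fintype.sum_prod_type, Fintype.sum_bool]
      cases i <;> simp <;> ring
    rw [e1] at h1
    have e2 : lt ((nb Go (vk k)).filter fun w => q k w ≠ 0) (vk k) (vk k)
        (tp q (Sum.inr (Sum.inr (i, k)) : JJ V κ)) lab = ∑ w ∈ nb (H i) (vk k), q k w := by
      unfold lt
      rw [e0 _ fun y hy => by simp [tp, hy], hnbH, sum_filter]
      rfl
    rw [e2] at h1
    exact h1

end Pool.Agent.Work.MP_db9399_oo.helper89
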